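import Pool.Agent.Run7.h234.HM
import Pool.Agent.Run7.h234.HF

/-!
# Finite generation of cohomology along exact sequences of Hopf algebras

Let `A → B → C` be an exact sequence of Hopf algebras over a field `k` with `B`
finite-dimensional.  We show that the FGC property of `A` and `C` implies the FGC property of
`B` when

* the dimension of `A` is invertible in `k`, or every central Hopf subalgebra of `A` is
  semisimple, and
* the dimension of `C` is invertible in `k`, or every cocentral quotient Hopf algebra of `C` is
  semisimple.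

In particular the question has a positive answer over every field of characteristic zero, and
over every field whose characteristic does not divide the dimensions of `A` and `C`.
-/

set_option autoImplicit false
set_option linter.unusedVariables false

universe u

open TensorProduct Coalgebra CategoryTheory CategoryTheory.Abelian

namespace Pool.Agent.Results.MP_2cde66_al.FgcExtension

section cat

variable {𝒞 : Type (u + 1)} [Category.{u} 𝒞] [Abelian 𝒞] [HasExt.{u} 𝒞]

/-- The graded `k`-algebra `Ext^*(X, X)` with the Yoneda product is finitely generated: there are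
finitely many homogeneous elements such that the only graded `k`-subalgebra (given by its
homogeneous parts `P n`) containing them is the whole algebra. -/
def ExtAlgFG (k : Type u) [Field k] [Linear k 𝒞] (X : 𝒞) : Prop :=
  ∃ s : Set (Σ n : ℕ, Ext.{u} X X n), s.Finite ∧
    ∀ P : (∀ n : ℕ, Submodule k (Ext.{u} X X n)),
      Ext.mk₀ (𝟙 X) ∈ P 0 →
      (∀ a ∈ s, a.2 ∈ P a.1) →
      (∀ (i j : ℕ) (a : Ext.{u} X X i) (b : Ext.{u} X X j), a ∈ P i → b ∈ P j →
        a.comp b rfl ∈ P (i + j)) →
      ∀ (n : ℕ) (x : Ext.{u} X X n), x ∈ P n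

/-- The graded module `Ext^*(X, Y)` over the graded ring `Ext^*(X, X)` is finitely generated:
there are finitely many homogeneous elements such that the only graded submodule (given by its
homogeneous parts `P n`) containing them is the whole module. -/
def ExtModFG (X Y : 𝒞) : Prop :=
  ∃ s : Set (Σ n : ℕ, Ext.{u} X Y n), s.Finite ∧
    ∀ P : (∀ n : ℕ, AddSubgroup (Ext.{u} X Y n)),
      (∀ a ∈ s, a.2 ∈ P a.1) →
      (∀ (i j : ℕ) (a : Ext.{u} X X i) (b : Ext.{u} X Y j), b ∈ P j →
        a.comp b rfl ∈ P (i + j)) →
      ∀ (n : ℕ) (x : Ext.{u} X Y n), x ∈ P n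

end cat

section defs

variable (k : Type u) [Field k]

/-- The trivial module of a Hopf algebra: the ground field with the action through the counit. -/
noncomputable def triv (H : Type u) [Ring H] [HopfAlgebra k H] : ModuleCat.{u} H :=
  (ModuleCat.restrictScalars.{u} (Bialgebra.counitAlgHom k H).toRingHom).obj (ModuleCat.of k k)

/-- The FGC property: the cohomology ring `Ext_H^*(k, k)` is a finitely generated `k`-algebra,
and `Ext_H^*(k, M)` is a finitely generated module over it for every finite-dimensional
`H`-module `M`. -/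
def FGC (H : Type u) [Ring H] [HopfAlgebra k H] : Prop :=
  ExtAlgFG k (triv k H) ∧
    ∀ (M : Type u) [AddCommGroup M] [Module k M] [Module H M] [IsScalarTower k H M],
      Module.Finite k M → ExtModFG (triv k H) (ModuleCat.of H M)

/-- The left adjoint action: `Σ b₁ x S(b₂)`. -/
noncomputable def adL {B : Type u} [Ring B] [HopfAlgebra k B] (b x : B) : B :=
  LinearMap.mul' k B (TensorProduct.map (LinearMap.mulRight k x) (HopfAlgebra.antipode k)
    (comul (R := k) b))

/-- The right adjoint action: `Σ S(b₁) x b₂`. -/
noncomputable def adR {B : Type u} [Ring B] [HopfAlgebra k B] (b x : B) : B :=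
  LinearMap.mul' k B (TensorProduct.map (LinearMap.mulRight k x ∘ₗ HopfAlgebra.antipode k)
    LinearMap.id (comul (R := k) b))

/-- An exact sequence of Hopf algebras: `ι` is injective, `π` is surjective, the image of `ι` is
stable under the left and right adjoint actions, and the kernel of `π` is the left ideal
generated by the image of the augmentation ideal of `A`. -/
structure IsExact {A B C : Type u} [Ring A] [Ring B] [Ring C] [HopfAlgebra k A]
    [HopfAlgebra k B] [HopfAlgebra k C] (ι : A →ₐc[k] B) (π : B →ₐc[k] C) : Prop where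
  inj : Function.Injective ι
  surj : Function.Surjective π
  normal_left : ∀ (b : B) (a : A), adL k b (ι a) ∈ Set.range ι
  normal_right : ∀ (b : B) (a : A), adR k b (ι a) ∈ Set.range ι
  ker : ∀ b : B, π b = 0 ↔ b ∈ Ideal.span (ι '' {a : A | counit (R := k) a = 0})

/-- `j` embeds `Z` as a central Hopf subalgebra of `A`. -/
def IsCentralSub {Z A : Type u} [Ring Z] [HopfAlgebra k Z] [Ring A] [HopfAlgebra k A]
    (j : Z →ₐc[k] A) : Prop :=
  Function.Injective j ∧ ∀ (z : Z) (a : A), j z * a = a * j z

/-- `p` is a cocentral quotient map: it is surjective and `Σ c₁ ⊗ p(c₂) = Σ c₂ ⊗ p(c₁)`. -/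
def IsCocentralQuot {C Q : Type u} [Ring C] [HopfAlgebra k C] [Ring Q] [HopfAlgebra k Q]
    (p : C →ₐc[k] Q) : Prop :=
  Function.Surjective p ∧
    ∀ c : C, TensorProduct.map LinearMap.id (p : C →ₗ[k] Q) (comul (R := k) c) =
      TensorProduct.comm k Q C (TensorProduct.map (p : C →ₗ[k] Q) LinearMap.id
        (comul (R := k) c))

/-- Every central Hopf subalgebra of `A` is semisimple. -/
def CentralSS (A : Type u) [Ring A] [HopfAlgebra k A] : Prop :=
  ∀ (Z : Type u) [Ring Z] [HopfAlgebra k Z] (j : Z →ₐc[k] A),
    IsCentralSub k j → IsSemisimpleRing Z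

/-- Every cocentral quotient Hopf algebra of `C` is semisimple. -/
def CocentralSS (C : Type u) [Ring C] [HopfAlgebra k C] : Prop :=
  ∀ (Q : Type u) [Ring Q] [HopfAlgebra k Q] (p : C →ₐc[k] Q),
    IsCocentralQuot k p → IsSemisimpleRing Q

end defs

section aux

variable {k : Type u} [Field k]

theorem FGC.toFG {H : Type u} [Ring H] [HopfAlgebra k H] (h : FGC k H) :
    Run7.h234.FG k (Run7.h234.FD k) (Run7.h234.trivH k H) := by
  refine ⟨Run7.h234.ExtAlgFG.toFiniteType h.1, fun M hM => ?_⟩
  let _ : Module k M := ModuleCat.moduleOfAlgebraModule (k := k) M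
  have _ : IsScalarTower k H M := ModuleCat.isScalarTower_of_algebra_moduleCat M
  exact Run7.h234.ExtModFG.toFinite (h.2 M hM)

theorem FGC.ofFG {H : Type u} [Ring H] [HopfAlgebra k H]
    (h : Run7.h234.FG k (Run7.h234.FD k) (Run7.h234.trivH k H)) : FGC k H := by
  refine ⟨Run7.h234.ExtAlgFG.of_finiteType h.1, fun M _ mk _ _ hM =>
    Run7.h234.ExtModFG.of_finite (h.2 (ModuleCat.of H M) ?_)⟩
  have e : (ModuleCat.moduleOfAlgebraModule (k := k) (ModuleCat.of H M) : Module k M) = mk := by
    apply Module.ext'
    intro c m
    exact algebraMap_smul H c m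
  change @Module.Finite k M _ _ (ModuleCat.moduleOfAlgebraModule (k := k) (ModuleCat.of H M))
  rw [e]
  exact hM

theorem adL_eq {B : Type u} [Ring B] [HopfAlgebra k B] (b x : B) :
    adL k b x = Run7.h234.adl (AlgHom.id k B) x b := by
  rw [adL, Run7.h234.adl]
  change _ = Run7.h234.adlM (AlgHom.id k B) x (comul (R := k) b)
  generalize comul (R := k) b = t
  induction t using TensorProduct.induction_on with
  | zero => simp
  | tmul u v => rfl
  | add s t hs ht => rw [map_add, map_add, map_add, hs, ht]

theorem adR_eq {B : Type u} [Ring B] [HopfAlgebra k B] (b x : B) :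
    adR k b x = Run7.h234.adr (k := k) x b := by
  rw [adR, Run7.h234.adr]
  change _ = Run7.h234.adM x (comul (R := k) b)
  generalize comul (R := k) b = t
  induction t using TensorProduct.induction_on with
  | zero => simp
  | tmul u v => rfl
  | add s t hs ht => rw [map_add, map_add, map_add, hs, ht]

end aux

/-- The main result. -/
theorem result (k : Type u) [Field k] (A B C : Type u) [Ring A] [Ring B] [Ring C]
    [HopfAlgebra k A] [HopfAlgebra k B] [HopfAlgebra k C] [Module.Finite k B]
    (ι : A →ₐc[k] B) (π : B →ₐc[k] C) (hex : IsExact k ι π)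
    (hA : (Module.finrank k A : k) ≠ 0 ∨ CentralSS k A)
    (hC : (Module.finrank k C : k) ≠ 0 ∨ CocentralSS k C)
    (fA : FGC k A) (fC : FGC k C) : FGC k B := by
  have hfA : Module.Finite k A :=
    Module.Finite.of_injective (Run7.h234.pal ι).toLinearMap hex.inj
  have hfC : Module.Finite k C :=
    Module.Finite.of_surjective (Run7.h234.pal π).toLinearMap hex.surj
  have hιπ : ∀ a, π (ι a) = counit (R := k) a • (1 : C) := by
    intro a
    have h1 : π (ι (a - counit (R := k) a • (1 : A))) = 0 := by
      rw [hex.ker]
      refine Ideal.subset_span ⟨_, ?_, rfl⟩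
      change counit (R := k) (a - counit (R := k) a • (1 : A)) = 0
      rw [map_sub, map_smul, Bialgebra.counit_one, smul_eq_mul, mul_one, sub_self]
    have h2 : Run7.h234.pal π (Run7.h234.pal ι (a - counit (R := k) a • (1 : A))) = 0 := h1
    rw [map_sub, map_smul, map_one, map_sub, map_smul, map_one, sub_eq_zero] at h2
    exact h2
  have hker : ∀ b, π b = 0 → b ∈ Ideal.span (ι '' {a | counit (R := k) a = 0}) :=
    fun b hb => (hex.ker b).1 hb
  have hnl : ∀ a b, Run7.h234.adl (AlgHom.id k B) (ι a) b ∈ Set.range ι := by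
    intro a b
    rw [← adL_eq]
    exact hex.normal_left b a
  have hnr : ∀ a b, Run7.h234.adr (k := k) (ι a) b ∈ Set.range ι := by
    intro a b
    rw [← adR_eq]
    exact hex.normal_right b a
  have htr : Run7.h234.TrH k A := by
    obtain h | h := hA
    · exact Run7.h234.TrH_of_dim h
    · exact Run7.h234.TrH_of_centre (fun Z _ _ j hj hc => h Z j ⟨hj, hc⟩)
  have hfE : Module.Finite k (Run7.h234.QB π) :=
    Module.Finite.of_surjective (Run7.h234.pal (Run7.h234.qB π)).toLinearMap
      (Run7.h234.qB_surj π)
  have hfG : Module.Finite k (Run7.h234.QC k C) :=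
    Module.Finite.of_surjective (Run7.h234.pal (Run7.h234.qC k C)).toLinearMap
      Run7.h234.qC_surj
  have he : ∃ e : Run7.h234.QC k C, (∀ h, e * h = counit (R := k) h • e) ∧
      counit (R := k) e = 1 := by
    obtain h | h := hC
    · exact Run7.h234.e_of_dim h
    · have hss : IsSemisimpleRing (Run7.h234.QC k C) :=
        h _ (Run7.h234.qC k C) ⟨Run7.h234.qC_surj, fun c => Run7.h234.qC_cocen.tens c⟩
      exact Run7.h234.ss_right
  exact FGC.ofFG (Run7.h234.main_gen ι π hex.inj hex.surj hιπ hker hnl (Run7.h234.qB π)
    (Run7.h234.qB_surj π)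
    (fun a b hb => Run7.h234.adr_Jid ι π hιπ hnr ((Run7.h234.qB_zero π b).1 hb) a)
    (Run7.h234.rho π) (Run7.h234.rho_surj π hex.surj) (Run7.h234.rho_iota ι π hιπ)
    (Run7.h234.kerR_rho ι π hex.surj (Run7.h234.kerR_of ι π hker hnl)) htr (Or.inr he)
    fA.toFG fC.toFG)

end Pool.Agent.Results.MP_2cde66_al.FgcExtension
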